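import Mathlib

set_option autoImplicit false

namespace Pool.Agent.Results.MP_4aedba_al.Incomplete

open Filter Topology Pointwise Set

abbrev F : Type := ZMod 2
abbrev M : Type := ℕ →₀ F

/-- triangular matrices -/
def R : Type := Module.End F M × M × F

noncomputable instance : AddCommGroup R := inferInstanceAs (AddCommGroup (Module.End F M × M × F))

def R.a (x : R) : Module.End F M := x.1
def R.m (x : R) : M := x.2.1
def R.c (x : R) : F := x.2.2
def mk (a : Module.End F M) (m : M) (c : F) : R := (a, m, c)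

theorem R.ext {x y : R} (h1 : x.a = y.a) (h2 : x.m = y.m) (h3 : x.c = y.c) : x = y :=
  Prod.ext h1 (Prod.ext h2 h3)

noncomputable instance : Mul R := ⟨fun x y => mk (x.a * y.a) (x.a y.m + y.c • x.m) (x.c * y.c)⟩
noncomputable instance : One R := ⟨mk 1 0 1⟩

@[simp] theorem mul_a (x y : R) : (x * y).a = x.a * y.a := rfl
@[simp] theorem mul_m (x y : R) : (x * y).m = x.a y.m + y.c • x.m := rfl
@[simp] theorem mul_c (x y : R) : (x * y).c = x.c * y.c := rfl
@[simp] theorem add_a (x y : R) : (x + y).a = x.a + y.a := rfl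
@[simp] theorem add_m (x y : R) : (x + y).m = x.m + y.m := rfl
@[simp] theorem add_c (x y : R) : (x + y).c = x.c + y.c := rfl
@[simp] theorem neg_a (x : R) : (-x).a = -x.a := rfl
@[simp] theorem neg_m (x : R) : (-x).m = -x.m := rfl
@[simp] theorem neg_c (x : R) : (-x).c = -x.c := rfl
@[simp] theorem zero_a : (0 : R).a = 0 := rfl
@[simp] theorem zero_m : (0 : R).m = 0 := rfl
@[simp] theorem zero_c : (0 : R).c = 0 := rfl
@[simp] theorem one_a : (1 : R).a = 1 := rfl
@[simp] theorem one_m : (1 : R).m = 0 := rfl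
@[simp] theorem one_c : (1 : R).c = 1 := rfl
@[simp] theorem mk_a (a : Module.End F M) (m : M) (c : F) : (mk a m c).a = a := rfl
@[simp] theorem mk_m (a : Module.End F M) (m : M) (c : F) : (mk a m c).m = m := rfl
@[simp] theorem mk_c (a : Module.End F M) (m : M) (c : F) : (mk a m c).c = c := rfl

noncomputable instance : Ring R where
  __ := (inferInstance : AddCommGroup R)
  left_distrib x y z := R.ext (by simp [mul_add]) (by simp [add_smul]; abel) (by simp [mul_add])
  right_distrib x y z := R.ext (by simp [add_mul]) (by simp; abel) (by simp [add_mul])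
  zero_mul x := R.ext (by simp) (by simp) (by simp)
  mul_zero x := R.ext (by simp) (by simp) (by simp)
  mul_assoc x y z := R.ext (by simp [mul_assoc])
    (by simp [smul_smul, mul_comm, add_assoc]) (by simp [mul_assoc])
  one_mul x := R.ext (by simp) (by simp) (by simp)
  mul_one x := R.ext (by simp) (by simp) (by simp)

def N (s : Finset (Module.Dual F M)) : Set R := {x | x.a = 0 ∧ x.c = 0 ∧ ∀ φ ∈ s, φ x.m = 0}

@[reducible] noncomputable def basis : RingFilterBasis R where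
  sets := {U | ∃ s, U = N s}
  nonempty := ⟨_, ∅, rfl⟩
  inter_sets := by
    classical
    rintro _ _ ⟨s, rfl⟩ ⟨t, rfl⟩
    exact ⟨_, ⟨s ∪ t, rfl⟩, fun x hx =>
      ⟨⟨hx.1, hx.2.1, fun φ h => hx.2.2 φ (Finset.mem_union_left _ h)⟩,
       ⟨hx.1, hx.2.1, fun φ h => hx.2.2 φ (Finset.mem_union_right _ h)⟩⟩⟩
  zero' := by
    rintro _ ⟨s, rfl⟩
    exact ⟨rfl, rfl, fun φ _ => by simp⟩
  add' := by
    rintro _ ⟨s, rfl⟩
    refine ⟨_, ⟨s, rfl⟩, ?_⟩
    rintro _ ⟨x, hx, y, hy, rfl⟩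
    exact ⟨by simp [hx.1, hy.1], by simp [hx.2.1, hy.2.1],
      fun φ h => by simp [hx.2.2 φ h, hy.2.2 φ h]⟩
  neg' := by
    rintro _ ⟨s, rfl⟩
    exact ⟨_, ⟨s, rfl⟩, fun x hx => ⟨by rw [neg_a, hx.1]; exact LinearMap.ext fun _ => neg_zero, by simp [hx.2.1],
      fun φ h => by simp [hx.2.2 φ h]⟩⟩
  conj' := by
    rintro x _ ⟨s, rfl⟩
    exact ⟨_, ⟨s, rfl⟩, fun a ha => by simpa using ha⟩
  mul' := by
    rintro _ ⟨s, rfl⟩
    refine ⟨_, ⟨s, rfl⟩, ?_⟩
    rintro _ ⟨x, hx, y, hy, rfl⟩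
    exact ⟨by simp [hx.1], by simp [hx.2.1], fun φ h => by simp [hx.1, hy.2.1]⟩
  mul_left' := by
    classical
    rintro x _ ⟨s, rfl⟩
    refine ⟨_, ⟨s.image fun φ => φ ∘ₗ x.a, rfl⟩, fun y hy => ⟨by simp [hy.1], by simp [hy.2.1],
      fun φ h => ?_⟩⟩
    simpa [hy.2.1] using hy.2.2 _ (Finset.mem_image_of_mem _ h)
  mul_right' := by
    rintro x _ ⟨s, rfl⟩
    exact ⟨_, ⟨s, rfl⟩, fun y hy => ⟨by simp [hy.1], by simp [hy.2.1],
      fun φ h => by simp [hy.1, hy.2.2 φ h]⟩⟩

@[reducible] noncomputable def t0 : TopologicalSpace R := basis.topology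

theorem t0_ring : @IsTopologicalRing R t0 _ := basis.isTopologicalRing

theorem t0_nhds (U : Set R) : U ∈ @nhds R t0 0 ↔ ∃ s, N s ⊆ U := by
  rw [basis.toAddGroupFilterBasis.nhds_zero_hasBasis.mem_iff]
  constructor
  · rintro ⟨_, ⟨j, rfl⟩, h⟩
    exact ⟨j, h⟩
  · rintro ⟨j, h⟩
    exact ⟨_, ⟨j, rfl⟩, h⟩

theorem t0_t2 : @T2Space R t0 := by
  letI := t0
  haveI := t0_ring
  refine IsTopologicalAddGroup.t2Space_of_zero_sep fun x hx => ?_
  by_cases h : x.m = 0
  · exact ⟨N ∅, (t0_nhds _).2 ⟨∅, subset_rfl⟩, fun h1 => hx (R.ext h1.1 h h1.2.1)⟩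
  · obtain ⟨n, hn⟩ : ∃ n, x.m n ≠ 0 := by
      by_contra h1
      push Not at h1
      exact h (Finsupp.ext h1)
    exact ⟨N {Finsupp.lapply n}, (t0_nhds _).2 ⟨_, subset_rfl⟩,
      fun h1 => hn (h1.2.2 _ (Finset.mem_singleton_self _))⟩

theorem t0_nd : ({0} : Set R) ∉ @nhds R t0 0 := by
  intro h
  obtain ⟨s, hs⟩ := (t0_nhds _).1 h
  obtain ⟨x, y, hxy, h1⟩ := Finite.exists_ne_map_eq_of_infinite (fun (m : M) (φ : s) => φ.1 m)
  have h2 : mk 0 (x - y) 0 ∈ N s := ⟨rfl, rfl, fun φ hφ => by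
    rw [mk_m, map_sub, sub_eq_zero]
    exact congrFun h1 ⟨φ, hφ⟩⟩
  exact hxy (sub_eq_zero.1 (congrArg R.m (hs h2)))

theorem chain_nd (c : Set (TopologicalSpace R)) (hc : ∀ t ∈ c, ({0} : Set R) ∉ @nhds R t 0)
    (hch : ∀ a ∈ c, ∀ b ∈ c, a ≤ b ∨ b ≤ a) (y : TopologicalSpace R) (hy : y ∈ c) :
    ({0} : Set R) ∉ @nhds R (sInf c) 0 := by
  rw [nhds_sInf, mem_biInf_of_directed _ ⟨y, hy⟩]
  · rintro ⟨t, ht, h⟩
    exact hc t ht h
  · intro a ha b hb
    rcases hch a ha b hb with h | h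
    · exact ⟨a, ha, le_rfl, nhds_mono h⟩
    · exact ⟨b, hb, nhds_mono h, le_rfl⟩

theorem exists_max : ∃ t : TopologicalSpace R,
    Minimal (fun t : TopologicalSpace R =>
      @IsTopologicalRing R t _ ∧ t ≤ t0 ∧ ({0} : Set R) ∉ @nhds R t 0) t := by
  obtain ⟨t, -, ht⟩ := zorn_le_nonempty₀ (α := (TopologicalSpace R)ᵒᵈ)
    {t : TopologicalSpace R | @IsTopologicalRing R t _ ∧ t ≤ t0 ∧ ({0} : Set R) ∉ @nhds R t 0}
    (fun c hc hch y hy => by
      refine ⟨(sInf (α := TopologicalSpace R) c : TopologicalSpace R), ⟨?_, ?_, ?_⟩,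
        fun z hz => sInf_le (α := TopologicalSpace R) hz⟩
      · letI : TopologicalSpace R := sInf (α := TopologicalSpace R) c
        exact
          { toContinuousAdd := continuousAdd_sInf fun t ht =>
              @IsTopologicalSemiring.toContinuousAdd R t _ (hc ht).1.toIsTopologicalSemiring
            toContinuousMul := continuousMul_sInf fun t ht =>
              @IsTopologicalSemiring.toContinuousMul R t _ (hc ht).1.toIsTopologicalSemiring
            toContinuousNeg := continuousNeg_sInf fun t ht =>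
              @IsTopologicalRing.toContinuousNeg R t _ (hc ht).1 }
      · exact le_trans (sInf_le (α := TopologicalSpace R) hy) (hc hy).2.1
      · exact chain_nd c (fun t ht => (hc ht).2.2) (fun a ha b hb => hch.total hb ha) y hy)
    t0 ⟨t0_ring, le_rfl, t0_nd⟩
  exact ⟨t, ht⟩

theorem char2 (x : M) : x + x = 0 := by
  ext n
  exact CharTwo.add_self_eq_zero _

open Classical in
/-- finite spans built from a choice function -/
noncomputable def T (nxt : Finset M → M) : ℕ → Finset M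
  | 0 => {0}
  | n + 1 => T nxt n ∪ (T nxt n).image fun s => s + nxt (T nxt n)

theorem span_avoid (P : M → Prop) (nxt : Finset M → M) (h : ∀ S : Finset M, ∀ s ∈ S, ¬ P (s + nxt S))
    (n : ℕ) : ∀ m : M, (∀ i, n ≤ i → m i = 0) →
      Finsupp.linearCombination F (fun i => nxt (T nxt i)) m ∈ T nxt n ∧
      (P (Finsupp.linearCombination F (fun i => nxt (T nxt i)) m) → m = 0) := by
  classical
  induction n with
  | zero =>
    intro m hm
    have : m = 0 := Finsupp.ext fun i => hm i (Nat.zero_le i)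
    subst this
    simp [T]
  | succ n ih =>
    intro m hm
    have z2 : ∀ x : F, x = 0 ∨ x = 1 := by decide
    rcases z2 (m n) with h0 | h1
    · obtain ⟨h2, h3⟩ := ih m fun i hi => by
        rcases hi.eq_or_lt with rfl | hi
        · exact h0
        · exact hm i hi
      exact ⟨Finset.mem_union_left _ h2, h3⟩
    · obtain ⟨h2, -⟩ := ih (m.erase n) fun i hi => by
        rcases hi.eq_or_lt with rfl | hi
        · simp
        · rw [Finsupp.erase_ne hi.ne', hm i hi]
      have h4 : Finsupp.linearCombination F (fun i => nxt (T nxt i)) m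
          = Finsupp.linearCombination F (fun i => nxt (T nxt i)) (m.erase n) + nxt (T nxt n) := by
        conv_lhs => rw [← Finsupp.erase_add_single n m, map_add, h1]
        simp
      rw [h4]
      exact ⟨Finset.mem_union_right _ (Finset.mem_image_of_mem _ h2), fun h5 => (h _ _ h2 h5).elim⟩

/-- the ideal -/
noncomputable def J : AddSubgroup R where
  carrier := N ∅
  add_mem' := fun {x y} hx hy => ⟨by simp [hx.1, hy.1], by simp [hx.2.1, hy.2.1], by simp⟩
  zero_mem' := ⟨rfl, rfl, by simp⟩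
  neg_mem' := fun {x} hx => ⟨by rw [neg_a, hx.1]; exact LinearMap.ext fun _ => neg_zero, by simp [hx.2.1], by simp⟩

theorem precompact [t : TopologicalSpace R] [IsTopologicalRing R] (hJ : (J : Set R) ∈ 𝓝 (0 : R))
    (hnd : ({0} : Set R) ∉ 𝓝 (0 : R)) (U : Set R) (hU : U ∈ 𝓝 (0 : R)) :
    ∃ S : Set R, S.Finite ∧ (J : Set R) ⊆ ⋃ y ∈ S, y +ᵥ U := by
  by_contra h
  push Not at h
  have h1 : ∀ S : Finset M, ∃ x : M, ∀ s ∈ S, mk 0 (s + x) 0 ∉ U := fun S => by
    obtain ⟨x, hx, hx'⟩ := not_subset.1 (h ((fun s => mk 0 s 0) '' S) (S.finite_toSet.image _))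
    refine ⟨x.m, fun s hs hsU => hx' (mem_iUnion₂.2 ⟨_, mem_image_of_mem _ hs, _, hsU, ?_⟩)⟩
    refine R.ext ?_ ?_ ?_
    · simp [hx.1]
    · simp [← add_assoc, char2]
    · simp [hx.2.1]
  choose nxt hn using h1
  have hc : Continuous fun r : R => mk (Finsupp.linearCombination F fun i => nxt (T nxt i)) 0 0 * r :=
    continuous_const.mul continuous_id
  have h2 := hc.continuousAt (x := 0) (show U ∈ _ by simpa using hU)
  refine hnd (mem_of_superset (inter_mem hJ h2) fun r hr => ?_)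
  obtain ⟨n, hn'⟩ := r.m.support.bddAbove
  refine R.ext hr.1.1 ((span_avoid (fun m => mk 0 m 0 ∈ U) nxt hn (n + 1) r.m fun i hi => ?_).2 ?_)
    hr.1.2.1
  · by_contra h3
    have := hn' (Finset.mem_coe.2 (Finsupp.mem_support_iff.2 h3))
    omega
  · have h3 : mk (Finsupp.linearCombination F fun i => nxt (T nxt i)) 0 0 * r ∈ U := hr.2
    convert h3 using 1
    exact R.ext (by simp [hr.1.1]) (by simp) (by simp)

theorem result : ∃ (R : Type) (_ : Ring R) (τ : TopologicalSpace R),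
    IsTopologicalRing R ∧ T2Space R ∧ ¬ DiscreteTopology R ∧
    (∀ τ' : TopologicalSpace R, @IsTopologicalRing R τ' _ → @T2Space R τ' →
      ¬ @DiscreteTopology R τ' → τ' ≤ τ → τ' = τ) ∧
    ∃ 𝓕 : Filter R, 𝓕.NeBot ∧ (∀ U ∈ nhds (0 : R), ∃ A ∈ 𝓕, ∀ x ∈ A, ∀ y ∈ A, x - y ∈ U) ∧
      ∀ x : R, ¬ 𝓕 ≤ nhds x := by
  obtain ⟨t, ⟨h1, h2, h3⟩, hmin⟩ := exists_max
  haveI h4 : T2Space R := t2Space_antitone h2 t0_t2
  refine ⟨R, inferInstance, t, h1, h4, fun hd => h3 ((isOpen_discrete _).mem_nhds rfl),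
    fun t' h5 _ h6 h7 => le_antisymm h7 (hmin ⟨h5, h7.trans h2, fun h8 => h6 ?_⟩ h7), ?_⟩
  · letI := t'
    exact discreteTopology_iff_isOpen_singleton_zero.2
      (isOpen_singleton_iff_nhds_eq_pure _ |>.2 (le_antisymm (le_pure_iff.2 h8) (pure_le_nhds _)))
  by_contra hcon
  push Not at hcon
  letI : UniformSpace R := IsTopologicalAddGroup.rightUniformSpace R
  haveI : IsUniformAddGroup R := isUniformAddGroup_of_addCommGroup
  haveI : CompleteSpace R := ⟨fun {f} hf => hcon f hf.1 fun U hU => by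
    have h5 : {p : R × R | p.1 - p.2 ∈ U} ∈ uniformity R :=
      (𝓝 (0 : R)).basis_sets.uniformity_of_nhds_zero_swapped.mem_iff.2 ⟨U, hU, subset_rfl⟩
    obtain ⟨A, hA, hA'⟩ := (cauchy_iff.1 hf).2 _ h5
    exact ⟨A, hA, fun x hx y hy => hA' (mk_mem_prod hx hy)⟩⟩
  have hJ : (J : Set R) ∈ 𝓝 (0 : R) := nhds_mono h2 ((t0_nhds _).2 ⟨∅, subset_rfl⟩)
  have hJo : IsOpen (J : Set R) := J.isOpen_of_mem_nhds hJ
  have hc : IsCompact (J : Set R) :=
    (totallyBounded_iff_subset_finite_iUnion_nhds_zero.2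
      (precompact hJ h3)).isCompact_of_isClosed (J.isClosed_of_isOpen hJo)
  haveI : CompactSpace J := isCompact_iff_compactSpace.1 hc
  haveI : Countable J := Function.Injective.countable (f := fun x : J => x.1.m)
    fun x y h => Subtype.ext (R.ext (x.2.1.trans y.2.1.symm) h (x.2.2.1.trans y.2.2.1.symm))
  obtain ⟨x, y, hy⟩ := nonempty_interior_of_iUnion_of_closed (f := fun x : J => ({x} : Set J))
    (fun _ => isClosed_singleton) (iUnion_of_singleton _)
  obtain rfl : y = x := mem_singleton_iff.1 (interior_subset hy)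
  have h5 : ({y} : Set J) ∈ 𝓝 y := mem_interior_iff_mem_nhds.1 hy
  have h6 := hJo.isOpenEmbedding_subtypeVal.isOpenMap.image_mem_nhds h5
  rw [image_singleton, ← map_add_left_nhds_zero, mem_map] at h6
  refine h3 (mem_of_superset h6 fun z hz => ?_)
  simpa using hz

end Pool.Agent.Results.MP_4aedba_al.Incomplete
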